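import Mathlib
import Pool.Agent.H949Z.Hecke.B

/-! Hecke's correspondence with a source term: four simple poles in the critical strip. -/

set_option autoImplicit false

open MeasureTheory Set Filter Topology Asymptotics Complex

namespace Pool.Agent.H369Z.Pole

open Pool.Agent.H949Z.Hecke

noncomputable section

/-- the source term -/
def qq (lam : ℝ) (w0 : ℂ) (t : ℝ) : ℝ := (I * ((t : ℂ) ^ (-w0) - (t : ℂ) ^ (w0 - lam))).re

/-- the polar part -/
def RR (lam : ℝ) (w0 w : ℂ) : ℂ :=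
  I / 2 * (1 / (w - w0) - 1 / (w + w0 - lam) - 1 / (w - starRingEnd ℂ w0) +
    1 / (w + starRingEnd ℂ w0 - lam))

lemma conj_cpow {t : ℝ} (ht : 0 < t) (z : ℂ) :
    starRingEnd ℂ ((t : ℂ) ^ z) = (t : ℂ) ^ (starRingEnd ℂ z) := by
  have harg : (t : ℂ).arg ≠ Real.pi := by
    rw [Complex.arg_ofReal_of_nonneg ht.le]; exact Real.pi_pos.ne
  have := Complex.cpow_conj (t : ℂ) z harg
  rw [Complex.conj_ofReal] at this
  exact this.symm

lemma qq_eq (lam : ℝ) (w0 : ℂ) {t : ℝ} (ht : 0 < t) : ((qq lam w0 t : ℝ) : ℂ) =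
    I / 2 * ((t : ℂ) ^ (-w0) - (t : ℂ) ^ (w0 - lam) - (t : ℂ) ^ (-(starRingEnd ℂ w0)) +
      (t : ℂ) ^ (starRingEnd ℂ w0 - lam)) := by
  unfold qq
  rw [Complex.re_eq_add_conj, map_mul, map_sub, conj_cpow ht, conj_cpow ht, Complex.conj_I,
    map_neg, map_sub, Complex.conj_ofReal]
  ring

lemma qq_one (lam : ℝ) (w0 : ℂ) : qq lam w0 1 = 0 := by simp [qq]

lemma qq_inv (lam : ℝ) (w0 : ℂ) {t : ℝ} (ht : 0 < t) :
    qq lam w0 (1 / t) = -(t ^ lam * qq lam w0 t) := by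
  have ht' : (t : ℂ) ≠ 0 := by exact_mod_cast ht.ne'
  have harg : (t : ℂ).arg ≠ Real.pi := by
    rw [Complex.arg_ofReal_of_nonneg ht.le]; exact Real.pi_pos.ne
  have h1 : ∀ z : ℂ, (((1 / t : ℝ)) : ℂ) ^ z = (t : ℂ) ^ (-z) := by
    intro z
    rw [one_div, Complex.ofReal_inv, Complex.inv_cpow _ _ harg, Complex.cpow_neg]
  have h2 : ((t ^ lam : ℝ) : ℂ) = (t : ℂ) ^ (lam : ℂ) := Complex.ofReal_cpow ht.le lam
  unfold qq
  rw [← Complex.re_ofReal_mul, ← Complex.neg_re, h1, h1, h2]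
  congr 1
  have e1 : (t : ℂ) ^ (lam : ℂ) * (t : ℂ) ^ (-w0) = (t : ℂ) ^ (-(w0 - lam)) := by
    rw [← Complex.cpow_add _ _ ht']; congr 1; ring
  have e2 : (t : ℂ) ^ (lam : ℂ) * (t : ℂ) ^ (w0 - lam) = (t : ℂ) ^ (- -w0) := by
    rw [← Complex.cpow_add _ _ ht']; congr 1; ring
  rw [← e1, ← e2]
  ring

lemma qq_cont (lam : ℝ) (w0 : ℂ) : ContinuousOn (qq lam w0) (Ioi 0) := by
  intro t ht
  have ht' : (0 : ℝ) < t := ht
  have h : ∀ z : ℂ, ContinuousAt (fun t : ℝ => (t : ℂ) ^ z) t := fun z =>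
    Complex.continuousAt_ofReal_cpow_const t z (Or.inr ht'.ne')
  unfold qq
  exact (Complex.continuous_re.continuousAt.comp
    (continuousAt_const.mul ((h _).sub (h _)))).continuousWithinAt

/-- the cut-off source -/
def chi (lam : ℝ) (w0 : ℂ) (t : ℝ) : ℝ := qq lam w0 (min t 1)

lemma chi_of_le (lam : ℝ) (w0 : ℂ) {t : ℝ} (ht : t ≤ 1) : chi lam w0 t = qq lam w0 t := by
  unfold chi; rw [min_eq_left ht]

lemma chi_of_ge (lam : ℝ) (w0 : ℂ) {t : ℝ} (ht : 1 ≤ t) : chi lam w0 t = 0 := by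
  unfold chi; rw [min_eq_right ht, qq_one]

lemma chi_cont (lam : ℝ) (w0 : ℂ) : ContinuousOn (chi lam w0) (Ioi 0) := by
  unfold chi
  refine (qq_cont lam w0).comp (by fun_prop) fun t ht => ?_
  exact mem_Ioi.2 (lt_min (mem_Ioi.1 ht) one_pos)

lemma chi_FE (lam : ℝ) (w0 : ℂ) {t : ℝ} (ht : 0 < t) :
    chi lam w0 (1 / t) = t ^ lam * (chi lam w0 t - qq lam w0 t) := by
  rcases le_total t 1 with h | h
  · rw [chi_of_le lam w0 h, chi_of_ge lam w0 (by rw [le_div_iff₀ ht]; linarith)]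
    ring
  · rw [chi_of_ge lam w0 h, chi_of_le lam w0 (by rw [div_le_one ht]; exact h), qq_inv lam w0 ht]
    ring

lemma hm_congr {f g : ℝ → ℂ} {s m : ℂ} (hf : HasMellin f s m) (hg : ∀ t, 0 < t → g t = f t) :
    HasMellin g s m := by
  constructor
  · refine (integrableOn_congr_fun (fun t ht => ?_) measurableSet_Ioi).1 hf.1
    simp only [hg t ht]
  · rw [← hf.2]
    unfold mellin
    refine setIntegral_congr_fun measurableSet_Ioi fun t ht => ?_
    simp only [hg t ht]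

lemma chi_mellin {lam : ℝ} {w0 w : ℂ} (h1 : 0 < w0.re) (h2 : w0.re < lam) (hw : lam < w.re) :
    HasMellin (fun t => ((chi lam w0 t : ℝ) : ℂ)) w (RR lam w0 w) := by
  have m1 := hasMellin_cpow_Ioc (-w0) (s := w) (by simp; linarith)
  have m2 := hasMellin_cpow_Ioc (w0 - lam) (s := w) (by simp; linarith)
  have m3 := hasMellin_cpow_Ioc (-(starRingEnd ℂ w0)) (s := w) (by simp; linarith)
  have m4 := hasMellin_cpow_Ioc (starRingEnd ℂ w0 - lam) (s := w) (by simp; linarith)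
  have a1 := hasMellin_sub m1.1 m2.1
  have a2 := hasMellin_sub a1.1 m3.1
  have a3 := hasMellin_add a2.1 m4.1
  have a4 := hasMellin_const_smul a3.1 (I / 2 : ℂ)
  rw [a3.2, a2.2, a1.2, m1.2, m2.2, m3.2, m4.2] at a4
  have e : RR lam w0 w = (I / 2 : ℂ) • (1 / (w + -w0) - 1 / (w + (w0 - lam)) -
      1 / (w + -(starRingEnd ℂ w0)) + 1 / (w + (starRingEnd ℂ w0 - lam))) := by
    unfold RR
    rw [smul_eq_mul]
    congr 3
    · congr 2 <;> ring
    · congr 1; ring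
  rw [e]
  refine hm_congr a4 fun t ht => ?_
  rcases le_or_gt t 1 with h | h
  · have hm : t ∈ Ioc (0 : ℝ) 1 := ⟨ht, h⟩
    simp only [indicator_of_mem hm, smul_eq_mul]
    rw [chi_of_le lam w0 h, qq_eq lam w0 ht]
  · have hm : t ∉ Ioc (0 : ℝ) 1 := fun hh => absurd hh.2 (not_le.2 h)
    simp only [indicator_of_notMem hm, smul_eq_mul]
    rw [chi_of_ge lam w0 h.le]
    simp

theorem source_hecke {lam η B C ε : ℝ} {w0 : ℂ} (hlam : 0 < lam) (hη : 0 < η) {a : ℕ → ℝ}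
    (ha0 : a 0 = 0) (ha : ∀ n : ℕ, 1 ≤ n → |a n| ≤ C * (n : ℝ) ^ B)
    (h1 : 0 < w0.re) (h2 : w0.re < lam)
    (hFE : ∀ t : ℝ, 0 < t → th lam η a t - t ^ (-lam) * th lam η a (1 / t) = ε * qq lam w0 t) :
    ∃ Φ : ℂ → ℂ, Differentiable ℂ Φ ∧ (∀ w : ℂ, Φ (lam - w) = Φ w) ∧
      (∀ w : ℂ, Φ (starRingEnd ℂ w) = starRingEnd ℂ (Φ w)) ∧
      (∃ K c : ℝ, 0 ≤ K ∧ 0 ≤ c ∧ ∀ s : ℂ, ‖FF lam η Φ s‖ ≤ K * Real.exp (c * (1 + ‖s‖) ^ 2)) ∧
      ∀ s : ℂ, 1 < s.re → LSeriesSummable (fun n => (a n : ℂ)) s →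
        FF lam η (fun w => Φ w + ε * RR lam w0 w) s = LSeries (fun n => (a n : ℂ)) s := by
  obtain ⟨D, hD, hd⟩ := th_decay hlam hη ha0 ha
  set f : ℝ → ℝ := fun t => th lam η a t - ε * chi lam w0 t with hf
  have hfc : ContinuousOn f (Ioi 0) :=
    (th_cont hlam hη ha0 ha).sub (continuousOn_const.mul (chi_cont lam w0))
  have hfd : ∀ t : ℝ, 1 ≤ t → |f t| ≤ D * Real.exp (-(η / 2) * t) := by
    intro t ht
    simp only [hf, chi_of_ge lam w0 ht, mul_zero, sub_zero]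
    exact hd t ht
  have hfe : ∀ t : ℝ, 0 < t → f (1 / t) = t ^ lam * f t := by
    intro t ht
    have e1 := hFE t ht
    have e2 : t ^ lam * t ^ (-lam) = 1 := by rw [← Real.rpow_add ht]; simp
    simp only [hf]
    rw [chi_FE lam w0 ht]
    have e3 : th lam η a (1 / t) = t ^ lam * (th lam η a t - ε * qq lam w0 t) := by
      rw [← e1]
      calc th lam η a (1 / t) = (t ^ lam * t ^ (-lam)) * th lam η a (1 / t) := by rw [e2, one_mul]
        _ = _ := by ring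
    rw [e3]
    ring
  obtain ⟨hdiff, hsym, K0, hK0, hb⟩ := mellin_facts hlam hη f hfc hD hfd hfe
  refine ⟨mellin fun t => (f t : ℂ), hdiff, hsym, mellin_conj f, FF_growth hlam hη hK0 hb, ?_⟩
  intro s hs hsum
  rw [← FF_lseries hlam hη ha0 ha s (by linarith) hsum]
  have hre : ((lam : ℂ) * s).re = lam * s.re := by simp
  have hw : lam < ((lam : ℂ) * s).re := by rw [hre]; nlinarith
  have hint : LocallyIntegrableOn (fun t => (f t : ℂ)) (Ioi 0) :=
    (Complex.continuous_ofReal.comp_continuousOn hfc).locallyIntegrableOn measurableSet_Ioi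
  have hconv : MellinConvergent (fun t => (f t : ℂ)) ((lam : ℂ) * s) := by
    refine mellinConvergent_of_isBigO_rpow_exp (a := η / 2) (b := lam) (by positivity) hint ?_ ?_ hw
    · refine IsBigO.of_bound D ?_
      filter_upwards [eventually_ge_atTop (1 : ℝ)] with t ht
      rw [Complex.norm_real, Real.norm_eq_abs, Real.norm_eq_abs, abs_of_pos (Real.exp_pos _)]
      exact hfd t ht
    · refine IsBigO.of_bound D ?_
      filter_upwards [Ioo_mem_nhdsGT (by norm_num : (0 : ℝ) < 1)] with t ht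
      have ht0 : 0 < t := ht.1
      have h3 : 1 ≤ 1 / t := by rw [le_div_iff₀ ht0]; linarith [ht.2]
      have h4 := hfd (1 / t) h3
      have h5 : Real.exp (-(η / 2) * (1 / t)) ≤ 1 := by
        apply Real.exp_le_one_iff.2
        have : 0 ≤ η / 2 * (1 / t) := by positivity
        linarith
      have h6 : |f (1 / t)| ≤ D := h4.trans (by nlinarith)
      have hp : 0 < t ^ lam := Real.rpow_pos_of_pos ht0 _
      rw [hfe t ht0, abs_mul, abs_of_pos hp] at h6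
      rw [Complex.norm_real, Real.norm_eq_abs, Real.norm_eq_abs,
        abs_of_pos (Real.rpow_pos_of_pos ht0 _), Real.rpow_neg ht0.le, ← div_eq_mul_inv,
        le_div_iff₀ hp]
      linarith
  have hchi := chi_mellin h1 h2 hw
  have hc2 := hasMellin_const_smul hchi.1 (ε : ℂ)
  have hsum2 := hasMellin_add hconv hc2.1
  rw [hc2.2, hchi.2] at hsum2
  have hth : HasMellin (fun t => (th lam η a t : ℂ)) ((lam : ℂ) * s)
      (mellin (fun t => (f t : ℂ)) ((lam : ℂ) * s) + (ε : ℂ) • RR lam w0 ((lam : ℂ) * s)) := by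
    refine hm_congr hsum2 fun t _ => ?_
    simp only [hf, smul_eq_mul]
    push_cast
    ring
  unfold FF
  rw [hth.2, smul_eq_mul]

end

end Pool.Agent.H369Z.Pole
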