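import Mathlib
import Pool.Agent.H369Z.Pole.A
import Pool.Agent.H360Z.Sel.PoinGen
import Pool.Agent.H413Z.Sel.Gens
import Pool.Agent.H458Z.Sel.PsiBounds

/-! An Euler product whose theta series satisfies the functional equation up to a source term. -/

set_option autoImplicit false

open MeasureTheory Set Filter Topology Complex

namespace Pool.Agent.H369Z.Pole

open Pool.Agent.H949Z.Hecke Pool.Agent.H520Z.Sel

noncomputable section

/-- the abstract existence theorem for Euler products -/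
def S_ASM : Prop := ∀ g : ℝ, g < 1 → ∃ L : ℕ, 1 ≤ L ∧
  ∀ (V : Submodule ℝ (ℝ → ℝ)) (lam c c1 C0 : ℝ), 0 < c1 → c1 < c - 1 → 0 ≤ C0 →
    (L : ℝ) * (c - c1) ≤ lam → c ≤ g * lam → Poin V c c1 C0 →
    (∀ h ∈ V, ∃ K : ℝ, ∀ y, 0 < y → (y ^ (c + 1) + y ^ (c - 1)) * |h y| ≤ K) →
    ∃ η0 : ℝ, 0 < η0 ∧ ∃ d : ℝ, 0 < d ∧ ∀ η : ℝ, 0 < η → η ≤ η0 → ∀ l : V →ₗ[ℝ] ℝ,
      (∀ (h : V) (N : ℝ), (∀ y, 0 < y → (y ^ c + y ^ (c - 1)) * |(h : ℝ → ℝ) y| ≤ N) →
        |l h| ≤ d * N) →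
      ∃ x : ℕ → ℝ, (∀ p, |x p| ≤ 1) ∧ Summable (fun p : ℕ => |x p| * (p : ℝ) ^ (-(c / lam))) ∧
        ∀ h : V, HasSum (fun n : ℕ => ec x n * (h : ℝ → ℝ) (η * (n : ℝ) ^ (1 / lam))) (l h)

lemma ec_bound {x : ℕ → ℝ} (hx : ∀ p, |x p| ≤ 1) (ε : ℝ) (hε : 0 < ε) :
    ∃ C : ℝ, ∀ n : ℕ, 1 ≤ n → |ec x n| ≤ C * (n : ℝ) ^ ε := by
  refine ec_ramanujan x (fun e he => ⟨0, fun p hp _ => (hx p).trans ?_⟩) ε hε
  exact Real.one_le_rpow (by exact_mod_cast hp.one_lt.le) he.le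

lemma decay_span (c : ℝ) (S : Set (ℝ → ℝ))
    (hS : ∀ h ∈ S, ∃ K : ℝ, ∀ y, 0 < y → (y ^ (c + 1) + y ^ (c - 1)) * |h y| ≤ K) :
    ∀ h ∈ Submodule.span ℝ S, ∃ K : ℝ, ∀ y, 0 < y → (y ^ (c + 1) + y ^ (c - 1)) * |h y| ≤ K := by
  intro h hh
  induction hh using Submodule.span_induction with
  | mem x hx => exact hS x hx
  | zero => exact ⟨0, fun y _ => by simp⟩
  | add x y _ _ hx hy =>
    obtain ⟨K1, h1⟩ := hx
    obtain ⟨K2, h2⟩ := hy
    refine ⟨K1 + K2, fun t ht => ?_⟩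
    have h3 : 0 ≤ t ^ (c + 1) + t ^ (c - 1) := by positivity
    have h4 : |(x + y) t| ≤ |x t| + |y t| := abs_add_le _ _
    have h5 := mul_le_mul_of_nonneg_left h4 h3
    linarith [h1 t ht, h2 t ht]
  | smul a x _ hx =>
    obtain ⟨K1, h1⟩ := hx
    refine ⟨|a| * K1, fun t ht => ?_⟩
    have e : |(a • x) t| = |a| * |x t| := by simp [abs_mul]
    rw [e]
    have := mul_le_mul_of_nonneg_left (h1 t ht) (abs_nonneg a)
    linarith

theorem exists_source (hA : S_ASM) (ρ : ℂ) (h1 : 1 / 2 ≤ ρ.re) (h2 : ρ.re < 1) :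
    ∃ (lam η ε : ℝ) (x : ℕ → ℝ), 0 < lam ∧ 0 < η ∧ 0 < ε ∧ (∀ p, |x p| ≤ 1) ∧
      Summable (fun p : ℕ => |x p| * (p : ℝ) ^ (-1 : ℝ)) ∧
      ∀ t : ℝ, 0 < t → th lam η (ec x) t - t ^ (-lam) * th lam η (ec x) (1 / t) =
        ε * qq lam (lam * ρ) t := by
  obtain ⟨L, hL1, hL⟩ := hA ((1 + ρ.re) / 2) (by linarith)
  set β := ρ.re with hβ
  have hβ1 : 0 < 1 - β := by linarith
  have hL0 : (0 : ℝ) ≤ L := Nat.cast_nonneg L
  set lam : ℝ := 6 * L + 16 / (1 - β) with hlam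
  have h16 : 0 < 16 / (1 - β) := by positivity
  have hlam0 : 0 < lam := by linarith
  have hlam8 : 16 ≤ lam * (1 - β) := by
    have : 16 / (1 - β) * (1 - β) = 16 := by field_simp
    rw [hlam]
    nlinarith
  set w0 : ℂ := lam * ρ with hw0
  have hw0re : w0.re = lam * β := by simp [hw0, hβ]
  have hlb : lam / 2 ≤ lam * β := by nlinarith
  set b : ℝ := lam * β + 1 with hb
  set c1 : ℝ := lam * β + 2 with hc1
  set c : ℝ := lam * β + 8 with hc
  obtain ⟨hG, -⟩ := mrep_gens lam b 1 c c1 one_pos hlam0 (by linarith) (by linarith) (by linarith)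
  obtain ⟨K0, K, A, hK0, hW, hp2, hp1⟩ := psi_bounds lam b 1 c c1 one_pos hlam0 (by linarith)
    (by linarith) (by linarith)
  set W : ℝ → ℝ := fun u => K0 * (1 + |u|) ^ (5 / 2 - c) * Real.exp (Real.pi / 2 * |u|) with hWd
  set S : Set (ℝ → ℝ) := {h | ∃ t : ℝ, 0 < t ∧
    h = fun y => Real.exp (-(t * y)) - t ^ (-lam) * Real.exp (-(y / t))} with hS
  obtain ⟨C0, C1, hC0, hC1, hP, 𝒢, h𝒢, h𝒢b⟩ := poincare_gen lam c c1 A K (-1) (by simp)
    (Psi2 lam b 1 (c - 1 / 2)) (Psi1 lam b 1 c1) W S (by linarith) (by linarith) (by linarith)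
    hW hp2 hp1 (by
      rintro h ⟨t, ht, rfl⟩
      exact ⟨_, (hG t ht).1⟩)
  obtain ⟨η, hη, d, hd, hmain⟩ := hL (Submodule.span ℝ S) lam c c1 C0 (by linarith) (by linarith)
    hC0 (by rw [hc, hc1]; linarith) (by rw [hc]; nlinarith) hP
    (decay_span c S (by
      rintro h ⟨t, ht, rfl⟩
      exact (hG t ht).2))
  have hPz : Pz lam b 1 w0 ≠ 0 := by
    have hpi := Real.pi_pos
    rw [H413.Pz_eq]
    refine mul_ne_zero (H413.sinh_ne ?_) (H413.sinh_ne ?_)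
    · rw [H413.re_arg, hw0re, hb]
      have : Real.pi * (lam * β - (lam * β + 1)) / 1 = -Real.pi := by ring
      rw [this]
      linarith
    · rw [H413.re_arg, hw0re]
      exact (div_pos (mul_pos hpi (by linarith)) one_pos).ne'
  have hW0 : 0 < W w0.im := by simp only [hWd]; positivity
  set M : ℝ := C1 * W w0.im / ‖Pz lam b 1 w0‖ with hM
  have hM0 : 0 ≤ M := by positivity
  set ε : ℝ := d / (M + 1) with hε
  have hε0 : 0 < ε := by positivity
  let l : Submodule.span ℝ S →ₗ[ℝ] ℝ :=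
    { toFun := fun h => ε * (I * 𝒢 h w0 / Pz lam b 1 w0).re
      map_add' := fun h h' => by
        rw [map_add, Pi.add_apply, mul_add I, add_div, Complex.add_re, mul_add]
      map_smul' := fun r h => by
        rw [map_smul, Pi.smul_apply, RingHom.id_apply, smul_eq_mul, Complex.real_smul]
        have : I * ((r : ℂ) * 𝒢 h w0) / Pz lam b 1 w0 = (r : ℂ) * (I * 𝒢 h w0 / Pz lam b 1 w0) := by
          ring
        rw [this, Complex.re_ofReal_mul]
        ring }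
  obtain ⟨x, hx, hxs, hsum⟩ := hmain η hη le_rfl l (by
    intro h N hN
    have hN0 : 0 ≤ N := le_trans (by positivity) (hN 1 one_pos)
    have k1 := h𝒢b h N hN w0 (by rw [hw0re]; linarith) (by rw [hw0re]; linarith)
    have k2 : |(I * 𝒢 h w0 / Pz lam b 1 w0).re| ≤ M * N := by
      refine (Complex.abs_re_le_norm _).trans ?_
      rw [norm_div, norm_mul, Complex.norm_I, one_mul, hM, div_mul_eq_mul_div]
      gcongr
      linarith
    show |ε * (I * 𝒢 h w0 / Pz lam b 1 w0).re| ≤ d * N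
    rw [abs_mul, abs_of_pos hε0]
    have k3 : ε * M ≤ d := by
      rw [hε, div_mul_eq_mul_div, div_le_iff₀ (by linarith)]
      nlinarith
    calc ε * |(I * 𝒢 h w0 / Pz lam b 1 w0).re| ≤ ε * (M * N) := by gcongr
      _ = ε * M * N := by ring
      _ ≤ d * N := by gcongr)
  have hxs1 : Summable (fun p : ℕ => |x p| * (p : ℝ) ^ (-1 : ℝ)) := by
    refine Summable.of_nonneg_of_le (fun p => by positivity) (fun p => ?_) hxs
    rcases Nat.eq_zero_or_pos p with rfl | hp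
    · have h0 : 0 ≤ |x 0| * ((0 : ℕ) : ℝ) ^ (-(c / lam)) := by positivity
      simpa using h0
    · have h3 : c / lam ≤ 1 := by rw [div_le_one hlam0, hc]; nlinarith
      have h4 : (1 : ℝ) ≤ p := by exact_mod_cast hp
      exact mul_le_mul_of_nonneg_left (Real.rpow_le_rpow_of_exponent_le h4 (by linarith))
        (abs_nonneg _)
  refine ⟨lam, η, ε, x, hlam0, hη, hε0, hx, hxs1, fun t ht => ?_⟩
  obtain ⟨C, hC⟩ := ec_bound hx 1 one_pos
  have hmem : (fun y => Real.exp (-(t * y)) - t ^ (-lam) * Real.exp (-(y / t))) ∈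
      Submodule.span ℝ S := Submodule.subset_span ⟨t, ht, rfl⟩
  have k1 := hsum ⟨_, hmem⟩
  have k2 : l ⟨_, hmem⟩ = ε * qq lam w0 t := by
    show ε * (I * 𝒢 ⟨_, hmem⟩ w0 / Pz lam b 1 w0).re = _
    rw [h𝒢 ⟨_, hmem⟩ _ (hG t ht).1]
    unfold qq
    congr 2
    field_simp
  rw [k2] at k1
  have s1 := (summable_th hlam0 hη (ec_zero x) hC ht).hasSum
  have s2 := ((summable_th hlam0 hη (ec_zero x) hC (t := 1 / t) (by positivity)).hasSum).mul_left
    (t ^ (-lam))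
  have s3 := s1.sub s2
  refine s3.unique ?_
  have e : (fun n : ℕ => ec x n * Real.exp (-(t * yy lam η n)) -
      t ^ (-lam) * (ec x n * Real.exp (-(1 / t * yy lam η n)))) =
      fun n : ℕ => ec x n * (Real.exp (-(t * (η * (n : ℝ) ^ (1 / lam)))) -
        t ^ (-lam) * Real.exp (-(η * (n : ℝ) ^ (1 / lam) / t))) := by
    funext n
    unfold yy
    have : 1 / t * (η * (n : ℝ) ^ (1 / lam)) = η * (n : ℝ) ^ (1 / lam) / t := by ring
    rw [this]
    ring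
  rw [e]
  exact k1

end

end Pool.Agent.H369Z.Pole
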