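import Mathlib
import Pool.Agent.H369Z.Pole.B
import Pool.Agent.H510R2.Div

/-! Arithmetic of the coefficients of `ζ(s) exp (∑ x_p p^(-s))`. -/

set_option autoImplicit false

open Filter Topology Complex

namespace Pool.Agent.H369Z.Pole

open Pool.Agent.H520Z.Sel

noncomputable section

/-- coefficients of `exp (∑ x_p p^(-s))` -/
def aC (x : ℕ → ℝ) (n : ℕ) : ℂ := ((ec x n : ℝ) : ℂ)

/-- coefficients of the product with `ζ` -/
def AC (x : ℕ → ℝ) : ℕ → ℂ := LSeries.convolution (1 : ℕ → ℂ) (aC x)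

/-- the prime part -/
def xP (x : ℕ → ℝ) (n : ℕ) : ℂ := if n.Prime then (x n : ℂ) else 0

/-- coefficients of the logarithm -/
def bC (x : ℕ → ℝ) (n : ℕ) : ℂ :=
  ((ArithmeticFunction.vonMangoldt n : ℝ) : ℂ) / (Real.log n : ℝ) + xP x n

lemma sum_primes {x : ℕ → ℝ} (hx : ∀ p, |x p| ≤ 1) {σ : ℝ} (hs : 1 < σ) :
    Summable fun p : Nat.Primes => |x p| * ((p : ℕ) : ℝ) ^ (-σ) := by
  have h : Summable fun n : ℕ => (n : ℝ) ^ (-σ) := Real.summable_nat_rpow.2 (by linarith)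
  have h2 : Summable fun p : Nat.Primes => ((p : ℕ) : ℝ) ^ (-σ) :=
    h.comp_injective Nat.Primes.coe_nat_injective
  refine Summable.of_nonneg_of_le (fun p => by positivity) (fun p => ?_) h2
  exact mul_le_of_le_one_left (by positivity) (hx p)

lemma aC_hasSum {x : ℕ → ℝ} (hx : ∀ p, |x p| ≤ 1) {s : ℂ} (hs : 1 < s.re) :
    LSeriesHasSum (aC x) s (Complex.exp (∑' p : Nat.Primes, (x p : ℂ) * ((p : ℕ) : ℂ) ^ (-s))) :=
  LSeries_ec x s (sum_primes hx hs)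

lemma xP_norm {x : ℕ → ℝ} (hx : ∀ p, |x p| ≤ 1) (n : ℕ) : ‖xP x n‖ ≤ 1 := by
  unfold xP
  split_ifs
  · rw [Complex.norm_real]; exact hx n
  · simp

lemma xP_summable {x : ℕ → ℝ} (hx : ∀ p, |x p| ≤ 1) {s : ℂ} (hs : 1 < s.re) :
    LSeriesSummable (xP x) s :=
  LSeriesSummable_of_bounded_of_one_lt_re (m := 1) (fun n _ => xP_norm hx n) hs

lemma xP_LSeries (x : ℕ → ℝ) (s : ℂ) :
    LSeries (xP x) s = ∑' p : Nat.Primes, (x p : ℂ) * ((p : ℕ) : ℂ) ^ (-s) := by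
  unfold LSeries
  rw [← Nat.Primes.coe_nat_injective.tsum_eq (f := LSeries.term (xP x) s)]
  · refine tsum_congr fun p => ?_
    rw [LSeries.term_of_ne_zero p.2.ne_zero, xP, if_pos p.2, div_eq_mul_inv, ← Complex.cpow_neg]
  · intro n hn
    by_cases hp : n.Prime
    · exact ⟨⟨n, hp⟩, rfl⟩
    · exfalso
      apply hn
      rcases eq_or_ne n 0 with rfl | h0
      · simp
      · rw [LSeries.term_of_ne_zero h0, xP, if_neg hp, zero_div]

lemma lam_norm (n : ℕ) :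
    ‖((ArithmeticFunction.vonMangoldt n : ℝ) : ℂ) / (Real.log n : ℝ)‖ ≤ 1 := by
  rw [norm_div, Complex.norm_real, Complex.norm_real, Real.norm_eq_abs, Real.norm_eq_abs,
    abs_of_nonneg ArithmeticFunction.vonMangoldt_nonneg, abs_of_nonneg (Real.log_natCast_nonneg n)]
  exact div_le_one_of_le₀ ArithmeticFunction.vonMangoldt_le_log (Real.log_natCast_nonneg n)

lemma bC_norm {x : ℕ → ℝ} (hx : ∀ p, |x p| ≤ 1) (n : ℕ) : ‖bC x n‖ ≤ 2 := by
  unfold bC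
  refine (norm_add_le _ _).trans ?_
  linarith [lam_norm n, xP_norm hx n]

lemma bC_zero (x : ℕ → ℝ) {n : ℕ} (hn : ¬ IsPrimePow n) : bC x n = 0 := by
  unfold bC xP
  rw [ArithmeticFunction.vonMangoldt_eq_zero_iff.2 hn, if_neg (fun hp => hn hp.isPrimePow)]
  simp

lemma bC_summable {x : ℕ → ℝ} (hx : ∀ p, |x p| ≤ 1) {s : ℂ} (hs : 1 < s.re) :
    LSeriesSummable (bC x) s :=
  LSeriesSummable_of_bounded_of_one_lt_re (m := 2) (fun n _ => bC_norm hx n) hs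

lemma AC_summable {x : ℕ → ℝ} (hx : ∀ p, |x p| ≤ 1) {s : ℂ} (hs : 1 < s.re) :
    LSeriesSummable (AC x) s :=
  (LSeriesSummable_one_iff.2 hs).convolution (aC_hasSum hx hs).LSeriesSummable

lemma AC_LSeries {x : ℕ → ℝ} (hx : ∀ p, |x p| ≤ 1) {s : ℂ} (hs : 1 < s.re) :
    LSeries (AC x) s = riemannZeta s * LSeries (aC x) s := by
  unfold AC
  rw [LSeries_convolution' (LSeriesSummable_one_iff.2 hs) (aC_hasSum hx hs).LSeriesSummable,
    LSeries_one_eq_riemannZeta hs]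

lemma AC_exp {x : ℕ → ℝ} (hx : ∀ p, |x p| ≤ 1) {s : ℂ} (hs : 1 < s.re) :
    LSeries (AC x) s = Complex.exp (LSeries (bC x) s) := by
  have h1 : LSeriesSummable
      (fun n : ℕ => ((ArithmeticFunction.vonMangoldt n : ℝ) : ℂ) / (Real.log n : ℝ)) s :=
    LSeriesSummable_of_bounded_of_one_lt_re (m := 1) (fun n _ => lam_norm n) hs
  have h2 : bC x = (fun n : ℕ => ((ArithmeticFunction.vonMangoldt n : ℝ) : ℂ) / (Real.log n : ℝ)) +
      xP x := rfl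
  rw [h2, LSeries_add h1 (xP_summable hx hs), Complex.exp_add, riemannZeta_eq_exp_LSeries hs,
    AC_LSeries hx hs, (aC_hasSum hx hs).LSeries_eq, xP_LSeries]

lemma AC_one (x : ℕ → ℝ) : AC x 1 = 1 := by
  unfold AC aC
  rw [LSeries.convolution_def]
  simp [ec_one]

lemma AC_ram {x : ℕ → ℝ} (hx : ∀ p, |x p| ≤ 1) (ε : ℝ) (hε : 0 < ε) :
    ∃ C : ℝ, ∀ n : ℕ, 1 ≤ n → ‖AC x n‖ ≤ C * (n : ℝ) ^ ε := by
  obtain ⟨C1, h1⟩ := ec_bound hx (ε / 2) (by linarith)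
  obtain ⟨C2, hC2, h2⟩ := Pool.Agent.H510R2.divisor_bound (ε / 2) (by linarith)
  have hC1 : 0 ≤ C1 := by
    have := h1 1 le_rfl
    simp only [Nat.cast_one, Real.one_rpow, mul_one] at this
    exact (abs_nonneg _).trans this
  refine ⟨C2 * C1, fun n hn => ?_⟩
  have hn0 : (0 : ℝ) < n := by exact_mod_cast hn
  unfold AC
  rw [LSeries.convolution_def]
  simp only [Pi.one_apply, one_mul]
  rw [Nat.sum_divisorsAntidiagonal' (fun _ d => aC x d)]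
  refine (norm_sum_le _ _).trans ?_
  have h3 : ∀ d ∈ n.divisors, ‖aC x d‖ ≤ C1 * (n : ℝ) ^ (ε / 2) := by
    intro d hd
    have hd1 : 1 ≤ d := Nat.pos_of_mem_divisors hd
    have hdn : (d : ℝ) ≤ n := by exact_mod_cast Nat.divisor_le hd
    unfold aC
    rw [Complex.norm_real]
    refine (h1 d hd1).trans ?_
    gcongr
  refine (Finset.sum_le_card_nsmul _ _ _ h3).trans ?_
  rw [nsmul_eq_mul]
  have e : (n : ℝ) ^ ε = (n : ℝ) ^ (ε / 2) * (n : ℝ) ^ (ε / 2) := by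
    rw [← Real.rpow_add hn0]; congr 1; ring
  calc (n.divisors.card : ℝ) * (C1 * (n : ℝ) ^ (ε / 2))
      ≤ (C2 * (n : ℝ) ^ (ε / 2)) * (C1 * (n : ℝ) ^ (ε / 2)) := by
        gcongr
        exact h2 n hn
    _ = _ := by rw [e]; ring

lemma aC_lower {x : ℕ → ℝ} (hx : ∀ p, |x p| ≤ 1)
    (hs : Summable (fun p : ℕ => |x p| * (p : ℝ) ^ (-1 : ℝ))) :
    ∃ d0 : ℝ, 0 < d0 ∧ ∀ s : ℂ, 1 < s.re → d0 ≤ ‖LSeries (aC x) s‖ := by
  have h1 : Summable fun p : Nat.Primes => |x p| * ((p : ℕ) : ℝ) ^ (-1 : ℝ) :=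
    hs.comp_injective Nat.Primes.coe_nat_injective
  refine ⟨Real.exp (-(∑' p : Nat.Primes, |x p| * ((p : ℕ) : ℝ) ^ (-1 : ℝ))), Real.exp_pos _,
    fun s hs1 => ?_⟩
  rw [(aC_hasSum hx hs1).LSeries_eq, Complex.norm_exp]
  apply Real.exp_le_exp.2
  have h2 : ‖∑' p : Nat.Primes, (x p : ℂ) * ((p : ℕ) : ℂ) ^ (-s)‖ ≤
      ∑' p : Nat.Primes, |x p| * ((p : ℕ) : ℝ) ^ (-1 : ℝ) := by
    refine tsum_of_norm_bounded h1.hasSum fun p => ?_
    rw [norm_mul, Complex.norm_real, Real.norm_eq_abs, Complex.norm_natCast_cpow_of_pos p.2.pos]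
    refine mul_le_mul_of_nonneg_left (Real.rpow_le_rpow_of_exponent_le ?_ ?_) (abs_nonneg _)
    · exact_mod_cast p.2.one_lt.le
    · simp; linarith
  have h3 := (Complex.abs_re_le_norm _).trans h2
  linarith [neg_abs_le (∑' p : Nat.Primes, (x p : ℂ) * ((p : ℕ) : ℂ) ^ (-s)).re]

end

end Pool.Agent.H369Z.Pole
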