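import Mathlib
import Pool.Agent.H369Z.Pole.C
import Pool.Agent.H458Z.Sel.Z1Order
import Pool.Agent.H437R2.A1

/-! The entire function `(s - 1) ζ(s) G(s)`, its growth and its functional equation. -/

set_option autoImplicit false

open Filter Topology Complex

namespace Pool.Agent.H369Z.Pole

open Pool.Agent.H949Z.Hecke Pool.Agent.H437R2

noncomputable section

/-- growth of order two -/
def OrdB (f : ℂ → ℂ) : Prop :=
  ∃ K c : ℝ, 0 ≤ K ∧ 0 ≤ c ∧ ∀ s : ℂ, ‖f s‖ ≤ K * Real.exp (c * (1 + ‖s‖) ^ 2)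

lemma OrdB.mul {f g : ℂ → ℂ} (hf : OrdB f) (hg : OrdB g) : OrdB (fun s => f s * g s) := by
  obtain ⟨K1, c1, h1, h2, h3⟩ := hf
  obtain ⟨K2, c2, h4, h5, h6⟩ := hg
  refine ⟨K1 * K2, c1 + c2, by positivity, by positivity, fun s => ?_⟩
  rw [norm_mul, add_mul, Real.exp_add]
  calc ‖f s‖ * ‖g s‖ ≤ (K1 * Real.exp (c1 * (1 + ‖s‖) ^ 2)) * (K2 * Real.exp (c2 * (1 + ‖s‖) ^ 2)) :=
        mul_le_mul (h3 s) (h6 s) (norm_nonneg _) (by positivity)
    _ = _ := by ring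

lemma OrdB.add {f g : ℂ → ℂ} (hf : OrdB f) (hg : OrdB g) : OrdB (fun s => f s + g s) := by
  obtain ⟨K1, c1, h1, h2, h3⟩ := hf
  obtain ⟨K2, c2, h4, h5, h6⟩ := hg
  refine ⟨K1 + K2, c1 + c2, by positivity, by positivity, fun s => ?_⟩
  have hp : 0 ≤ (1 + ‖s‖) ^ 2 := by positivity
  have e1 : Real.exp (c1 * (1 + ‖s‖) ^ 2) ≤ Real.exp ((c1 + c2) * (1 + ‖s‖) ^ 2) :=
    Real.exp_le_exp.2 (by nlinarith)
  have e2 : Real.exp (c2 * (1 + ‖s‖) ^ 2) ≤ Real.exp ((c1 + c2) * (1 + ‖s‖) ^ 2) :=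
    Real.exp_le_exp.2 (by nlinarith)
  have e3 := mul_le_mul_of_nonneg_left e1 h1
  have e4 := mul_le_mul_of_nonneg_left e2 h4
  have e5 := norm_add_le (f s) (g s)
  linarith [h3 s, h6 s]

lemma OrdB.const (a : ℂ) : OrdB (fun _ => a) :=
  ⟨‖a‖, 0, norm_nonneg _, le_rfl, fun s => by simp⟩

lemma OrdB.sub {f g : ℂ → ℂ} (hf : OrdB f) (hg : OrdB g) : OrdB (fun s => f s - g s) := by
  have := hf.add ((OrdB.const (-1)).mul hg)
  simpa [sub_eq_add_neg] using this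

lemma OrdB.order {f : ℂ → ℂ} (hf : OrdB f) : ∃ A B : ℝ, ∀ s : ℂ, ‖f s‖ ≤ A * Real.exp (‖s‖ ^ B) := by
  obtain ⟨K1, c, hK1, hc, hg⟩ := hf
  refine ⟨K1 * Real.exp (4 * c + 64 * c ^ 3), 3, fun s => (hg s).trans ?_⟩
  rw [mul_assoc, ← Real.exp_add]
  refine mul_le_mul_of_nonneg_left (Real.exp_le_exp.2 ?_) hK1
  have e : ‖s‖ ^ (3 : ℝ) = ‖s‖ ^ (3 : ℕ) := by exact_mod_cast Real.rpow_natCast ‖s‖ 3
  rw [e]
  have hr := norm_nonneg s
  set r := ‖s‖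
  have h1 : c * (1 + r) ^ 2 ≤ 2 * c + 2 * c * r ^ 2 := by nlinarith [sq_nonneg (1 - r)]
  have h2 : 2 * c * r ^ 2 ≤ 64 * c ^ 3 + r ^ 3 := by
    rcases le_total r (2 * c) with h | h
    · have : r ^ 2 ≤ (2 * c) ^ 2 := by gcongr
      have h3 : 2 * c * r ^ 2 ≤ 2 * c * (2 * c) ^ 2 := by gcongr
      have h4 : 0 ≤ r ^ 3 := by positivity
      have h5 : 0 ≤ c ^ 3 := by positivity
      nlinarith
    · have h3 : 2 * c * r ^ 2 ≤ r * r ^ 2 := by gcongr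
      have h5 : 0 ≤ c ^ 3 := by positivity
      nlinarith
  linarith

/-- the factor `η^(λ s) / Γ(λ s)` -/
def EG (lam η : ℝ) (s : ℂ) : ℂ := FF lam η (fun _ => 1) s

lemma FF_eq (lam η : ℝ) (Λ : ℂ → ℂ) (s : ℂ) : FF lam η Λ s = Λ (lam * s) * EG lam η s := by
  unfold EG FF
  ring

lemma EG_diff (lam η : ℝ) : Differentiable ℂ (EG lam η) := FF_diff (differentiable_const _)

lemma EG_ord {lam η : ℝ} (hlam : 0 < lam) (hη : 0 < η) : OrdB (EG lam η) := by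
  refine FF_growth hlam hη (K := 1) zero_le_one fun w => ?_
  rw [norm_one, one_mul]
  exact Real.one_le_exp (by positivity)

lemma EG_ne {lam η : ℝ} (hlam : 0 < lam) {s : ℂ} (hs : 0 < s.re) : EG lam η s ≠ 0 := by
  unfold EG FF
  refine mul_ne_zero (mul_ne_zero one_ne_zero (Complex.exp_ne_zero _)) (inv_ne_zero ?_)
  apply Complex.Gamma_ne_zero_of_re_pos
  have : ((lam : ℂ) * s).re = lam * s.re := by simp
  rw [this]
  positivity

/-- the meromorphic function with four simple poles -/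
def GG (lam η ε : ℝ) (ρ : ℂ) (Φ : ℂ → ℂ) (s : ℂ) : ℂ :=
  FF lam η (fun w => Φ w + ε * RR lam (lam * ρ) w) s

/-- the entire function `(s - 1) ζ(s) G(s)` -/
def HH (lam η ε : ℝ) (ρ : ℂ) (Φ : ℂ → ℂ) (s : ℂ) : ℂ :=
  riemannZeta₁ s * FF lam η Φ s + (ε * I / (2 * lam)) *
    (dslope riemannZeta₁ ρ s - dslope riemannZeta₁ (1 - ρ) s -
      dslope riemannZeta₁ (starRingEnd ℂ ρ) s + dslope riemannZeta₁ (1 - starRingEnd ℂ ρ) s) *
    EG lam η s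

/-- the point is none of the four poles -/
def Off (ρ s : ℂ) : Prop :=
  s ≠ ρ ∧ s ≠ 1 - ρ ∧ s ≠ starRingEnd ℂ ρ ∧ s ≠ 1 - starRingEnd ℂ ρ

lemma zero_one_sub {ρ : ℂ} (h0 : 0 < ρ.re) (h1 : ρ.re < 1) (hz : riemannZeta ρ = 0) :
    riemannZeta (1 - ρ) = 0 := by
  rw [riemannZeta_one_sub, hz, mul_zero]
  · intro n hn
    have := congrArg Complex.re hn
    simp at this
    have h2 : (0 : ℝ) ≤ n := Nat.cast_nonneg n
    linarith
  · intro h
    rw [h] at h1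
    simp at h1

lemma z1_zero {ρ : ℂ} (h1 : ρ.re < 1) (hz : riemannZeta ρ = 0) : riemannZeta₁ ρ = 0 := by
  rw [z1_of_ne, hz, mul_zero]
  intro h
  rw [h] at h1
  simp at h1

lemma four_zeros {ρ : ℂ} (h0 : 0 < ρ.re) (h1 : ρ.re < 1) (hz : riemannZeta ρ = 0) :
    riemannZeta₁ ρ = 0 ∧ riemannZeta₁ (1 - ρ) = 0 ∧ riemannZeta₁ (starRingEnd ℂ ρ) = 0 ∧
      riemannZeta₁ (1 - starRingEnd ℂ ρ) = 0 := by
  have hc : riemannZeta (starRingEnd ℂ ρ) = 0 := by rw [riemannZeta_conj, hz, map_zero]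
  refine ⟨z1_zero h1 hz, z1_zero (by simp; linarith) (zero_one_sub h0 h1 hz),
    z1_zero (by simpa using h1) hc,
    z1_zero (by simp; linarith) (zero_one_sub (by simpa using h0) (by simpa using h1) hc)⟩

lemma HH_diff_ord {lam η ε : ℝ} {ρ : ℂ} {Φ : ℂ → ℂ} (hlam : 0 < lam) (hη : 0 < η)
    (h0 : 0 < ρ.re) (h1 : ρ.re < 1) (hz : riemannZeta ρ = 0) (hΦ : Differentiable ℂ Φ)
    (hg : OrdB (FF lam η Φ)) :
    Differentiable ℂ (HH lam η ε ρ Φ) ∧ OrdB (HH lam η ε ρ Φ) := by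
  obtain ⟨z1, z2, z3, z4⟩ := four_zeros h0 h1 hz
  have ho := Pool.Agent.H458Z.Z1.z1_order
  obtain ⟨d1, o1⟩ := Pool.Agent.H458Z.Z1.dslope_order _ differentiable_riemannZeta₁ _ z1 ho
  obtain ⟨d2, o2⟩ := Pool.Agent.H458Z.Z1.dslope_order _ differentiable_riemannZeta₁ _ z2 ho
  obtain ⟨d3, o3⟩ := Pool.Agent.H458Z.Z1.dslope_order _ differentiable_riemannZeta₁ _ z3 ho
  obtain ⟨d4, o4⟩ := Pool.Agent.H458Z.Z1.dslope_order _ differentiable_riemannZeta₁ _ z4 ho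
  constructor
  · unfold HH
    exact (differentiable_riemannZeta₁.mul (FF_diff hΦ)).add
      (((differentiable_const _).mul (((d1.sub d2).sub d3).add d4)).mul (EG_diff lam η))
  · unfold HH
    exact (OrdB.mul ho hg).add
      (((OrdB.const _).mul (((OrdB.sub o1 o2).sub o3).add o4)).mul (EG_ord hlam hη))

lemma dslope_zero {f : ℂ → ℂ} {z s : ℂ} (hz : f z = 0) (hs : s ≠ z) :
    dslope f z s = f s / (s - z) := by
  rw [dslope_of_ne _ hs, slope_def_field, hz, sub_zero]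

lemma HH_eq {lam η ε : ℝ} {ρ : ℂ} (Φ : ℂ → ℂ) (hlam : 0 < lam)
    (h0 : 0 < ρ.re) (h1 : ρ.re < 1) (hz : riemannZeta ρ = 0) {s : ℂ} (hs : Off ρ s) :
    HH lam η ε ρ Φ s = riemannZeta₁ s * GG lam η ε ρ Φ s := by
  obtain ⟨z1, z2, z3, z4⟩ := four_zeros h0 h1 hz
  obtain ⟨n1, n2, n3, n4⟩ := hs
  have hl : (lam : ℂ) ≠ 0 := by exact_mod_cast hlam.ne'
  unfold HH GG
  rw [dslope_zero z1 n1, dslope_zero z2 n2, dslope_zero z3 n3, dslope_zero z4 n4,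
    FF_eq lam η Φ, FF_eq lam η (fun w => Φ w + ε * RR lam (lam * ρ) w)]
  unfold RR
  have e1 : (lam : ℂ) * s - lam * ρ = lam * (s - ρ) := by ring
  have e2 : (lam : ℂ) * s + lam * ρ - lam = lam * (s - (1 - ρ)) := by ring
  have e3 : (lam : ℂ) * s - starRingEnd ℂ (lam * ρ) = lam * (s - starRingEnd ℂ ρ) := by
    rw [map_mul, Complex.conj_ofReal]; ring
  have e4 : (lam : ℂ) * s + starRingEnd ℂ (lam * ρ) - lam =
      lam * (s - (1 - starRingEnd ℂ ρ)) := by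
    rw [map_mul, Complex.conj_ofReal]; ring
  rw [e1, e2, e3, e4]
  have m1 := sub_ne_zero.2 n1
  have m2 := sub_ne_zero.2 n2
  have m3 := sub_ne_zero.2 n3
  have m4 := sub_ne_zero.2 n4
  field_simp

lemma RR_symm (lam : ℝ) (w0 w : ℂ) :
    starRingEnd ℂ (RR lam w0 (lam - starRingEnd ℂ w)) = RR lam w0 w := by
  unfold RR
  simp only [map_mul, map_add, map_sub, map_div₀, map_one, Complex.conj_conj, Complex.conj_I,
    Complex.conj_ofReal, map_ofNat]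
  have e1 : (lam : ℂ) - w - starRingEnd ℂ w0 = -(w + starRingEnd ℂ w0 - lam) := by ring
  have e2 : (lam : ℂ) - w + starRingEnd ℂ w0 - lam = -(w - starRingEnd ℂ w0) := by ring
  have e3 : (lam : ℂ) - w - w0 = -(w + w0 - lam) := by ring
  have e4 : (lam : ℂ) - w + w0 - lam = -(w - w0) := by ring
  rw [e1, e2, e3, e4]
  simp only [div_neg]
  ring

lemma Off_refl {ρ s : ℂ} (h : Off ρ s) : Off ρ (1 - starRingEnd ℂ s) := by
  obtain ⟨n1, n2, n3, n4⟩ := h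
  refine ⟨fun e => n4 ?_, fun e => n3 ?_, fun e => n2 ?_, fun e => n1 ?_⟩
  · rw [← e]; simp
  · have : starRingEnd ℂ s = ρ := by linear_combination -e
    rw [← this]; simp
  · have e2 := congrArg (starRingEnd ℂ) e
    simp only [map_sub, map_one, Complex.conj_conj] at e2
    rw [← e2]; ring
  · have : starRingEnd ℂ s = starRingEnd ℂ ρ := by linear_combination -e
    simpa using congrArg (starRingEnd ℂ) this

lemma Off_eventually (ρ s : ℂ) : ∀ᶠ z in 𝓝[≠] s, Off ρ z := by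
  have h : ∀ a : ℂ, ∀ᶠ z in 𝓝[≠] s, z ≠ a := by
    intro a
    by_cases ha : s = a
    · subst ha
      exact self_mem_nhdsWithin
    · exact mem_nhdsWithin_of_mem_nhds (isOpen_ne.mem_nhds ha)
  filter_upwards [h ρ, h (1 - ρ), h (starRingEnd ℂ ρ), h (1 - starRingEnd ℂ ρ)] with z a b c d
  exact ⟨a, b, c, d⟩

lemma Off_of_re {ρ s : ℂ} (h0 : 0 < ρ.re) (h1 : ρ.re < 1) (hs : 1 ≤ s.re ∨ s.re ≤ 0) : Off ρ s := by
  refine ⟨?_, ?_, ?_, ?_⟩
  · intro e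
    have := congrArg Complex.re e
    rcases hs with h | h <;> linarith
  · intro e
    have := congrArg Complex.re e
    simp only [Complex.sub_re, Complex.one_re] at this
    rcases hs with h | h <;> linarith
  · intro e
    have := congrArg Complex.re e
    simp only [Complex.conj_re] at this
    rcases hs with h | h <;> linarith
  · intro e
    have := congrArg Complex.re e
    simp only [Complex.sub_re, Complex.one_re, Complex.conj_re] at this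
    rcases hs with h | h <;> linarith

/-- the completed function -/
def UU (lam η ε : ℝ) (ρ : ℂ) (Φ : ℂ → ℂ) (s : ℂ) : ℂ :=
  ((η ^ (-lam) * Real.pi ^ (-(1 / 2) : ℝ) : ℝ) : ℂ) ^ s *
    (Complex.Gamma (((1 / 2 : ℝ) : ℂ) * s) * Complex.Gamma (lam * s)) *
    (HH lam η ε ρ Φ s / (s - 1))

lemma GammaR_ne {s : ℂ} (h : ∀ n : ℕ, ((1 / 2 : ℝ) : ℂ) * s ≠ -(n : ℂ)) : Gammaℝ s ≠ 0 := by
  intro h0
  obtain ⟨n, hn⟩ := Gammaℝ_eq_zero_iff.1 h0
  apply h n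
  rw [hn]
  push_cast
  ring

lemma UU_eq {lam η ε : ℝ} {ρ : ℂ} (Φ : ℂ → ℂ) (hlam : 0 < lam) (hη : 0 < η)
    (h0 : 0 < ρ.re) (h1 : ρ.re < 1) (hz : riemannZeta ρ = 0) {s : ℂ} (hs : Off ρ s)
    (hs0 : s ≠ 0) (hs1 : s ≠ 1) (g1 : ∀ n : ℕ, ((1 / 2 : ℝ) : ℂ) * s ≠ -(n : ℂ))
    (g2 : ∀ n : ℕ, (lam : ℂ) * s ≠ -(n : ℂ)) :
    UU lam η ε ρ Φ s =
      completedRiemannZeta s * (Φ (lam * s) + ε * RR lam (lam * ρ) (lam * s)) := by
  have k1 := FF_completed hη (fun w => Φ w + ε * RR lam (lam * ρ) w) s g2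
  have k2 : completedRiemannZeta s = Gammaℝ s * riemannZeta s := by
    rw [riemannZeta_def_of_ne_zero hs0]
    have := GammaR_ne g1
    field_simp
  have k3 : ((η ^ (-lam) * Real.pi ^ (-(1 / 2) : ℝ) : ℝ) : ℂ) ^ s =
      ((η ^ (-lam) : ℝ) : ℂ) ^ s * (Real.pi : ℂ) ^ (-s / 2) := by
    rw [Complex.ofReal_mul, Complex.mul_cpow_ofReal_nonneg (Real.rpow_pos_of_pos hη _).le
      (Real.rpow_pos_of_pos Real.pi_pos _).le]
    congr 1
    rw [show -s / 2 = ((-(1 / 2) : ℝ) : ℂ) * s by push_cast; ring,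
      Complex.cpow_mul_ofReal_nonneg Real.pi_pos.le]
  unfold UU
  rw [HH_eq Φ hlam h0 h1 hz hs, z1_of_ne hs1, k2, k3, ← k1, Gammaℝ_def]
  have e : ((1 / 2 : ℝ) : ℂ) * s = s / 2 := by push_cast; ring
  rw [e]
  unfold GG
  have m1 := sub_ne_zero.2 hs1
  field_simp

lemma completed_conj {s : ℂ} (hs0 : s ≠ 0) (g1 : ∀ n : ℕ, ((1 / 2 : ℝ) : ℂ) * s ≠ -(n : ℂ)) :
    starRingEnd ℂ (completedRiemannZeta (starRingEnd ℂ s)) = completedRiemannZeta s := by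
  have hc : Gammaℝ (starRingEnd ℂ s) = starRingEnd ℂ (Gammaℝ s) := by
    rw [Gammaℝ_def, Gammaℝ_def, map_mul, conj_cpow Real.pi_pos, ← Complex.Gamma_conj]
    simp only [map_div₀, map_neg, map_ofNat]
  have n1 := GammaR_ne g1
  have n2 : Gammaℝ (starRingEnd ℂ s) ≠ 0 := by
    rw [hc]; exact (map_ne_zero _).2 n1
  have hs0' : starRingEnd ℂ s ≠ 0 := (map_ne_zero _).2 hs0
  have k1 : completedRiemannZeta s = Gammaℝ s * riemannZeta s := by
    rw [riemannZeta_def_of_ne_zero hs0]; field_simp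
  have k2 : completedRiemannZeta (starRingEnd ℂ s) =
      Gammaℝ (starRingEnd ℂ s) * riemannZeta (starRingEnd ℂ s) := by
    rw [riemannZeta_def_of_ne_zero hs0']; field_simp
  rw [k2, k1, hc, riemannZeta_conj, ← map_mul, Complex.conj_conj]

lemma UU_symm_off {lam η ε : ℝ} {ρ : ℂ} {Φ : ℂ → ℂ} (hlam : 0 < lam) (hη : 0 < η)
    (h0 : 0 < ρ.re) (h1 : ρ.re < 1) (hz : riemannZeta ρ = 0)
    (hΦ1 : ∀ w : ℂ, Φ (lam - w) = Φ w)
    (hΦ2 : ∀ w : ℂ, Φ (starRingEnd ℂ w) = starRingEnd ℂ (Φ w)) {s : ℂ} (hs : Off ρ s)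
    (hs0 : s ≠ 0) (hs1 : s ≠ 1) (g1 : ∀ n : ℕ, ((1 / 2 : ℝ) : ℂ) * s ≠ -(n : ℂ))
    (g2 : ∀ n : ℕ, (lam : ℂ) * s ≠ -(n : ℂ))
    (g3 : ∀ n : ℕ, ((1 / 2 : ℝ) : ℂ) * (1 - starRingEnd ℂ s) ≠ -(n : ℂ))
    (g4 : ∀ n : ℕ, (lam : ℂ) * (1 - starRingEnd ℂ s) ≠ -(n : ℂ)) :
    UU lam η ε ρ Φ s = starRingEnd ℂ (UU lam η ε ρ Φ (1 - starRingEnd ℂ s)) := by
  have t0 : 1 - starRingEnd ℂ s ≠ 0 := by
    intro e
    apply hs1
    have : starRingEnd ℂ s = 1 := by linear_combination -e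
    simpa using congrArg (starRingEnd ℂ) this
  have t1 : 1 - starRingEnd ℂ s ≠ 1 := by
    intro e
    apply hs0
    have : starRingEnd ℂ s = 0 := by linear_combination -e
    simpa using congrArg (starRingEnd ℂ) this
  rw [UU_eq Φ hlam hη h0 h1 hz hs hs0 hs1 g1 g2,
    UU_eq Φ hlam hη h0 h1 hz (Off_refl hs) t0 t1 g3 g4, completedRiemannZeta_one_sub]
  have e1 : (lam : ℂ) * (1 - starRingEnd ℂ s) = lam - starRingEnd ℂ ((lam : ℂ) * s) := by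
    simp only [map_mul, Complex.conj_ofReal]; ring
  rw [e1]
  generalize (lam : ℂ) * s = w
  rw [map_mul, completed_conj hs0 g1, map_add, map_mul, RR_symm, hΦ1, hΦ2, Complex.conj_conj,
    Complex.conj_ofReal]

lemma pos_ne {a : ℝ} (ha : 0 < a) {s : ℂ} (hs : 0 < s.re) (n : ℕ) : (a : ℂ) * s ≠ -(n : ℂ) := by
  intro e
  have := congrArg Complex.re e
  simp at this
  have h2 : (0 : ℝ) ≤ n := Nat.cast_nonneg n
  nlinarith [mul_pos ha hs]

lemma UU_cont {lam η ε : ℝ} {ρ : ℂ} {Φ : ℂ → ℂ} (hlam : 0 < lam) (hη : 0 < η)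
    (hH : Differentiable ℂ (HH lam η ε ρ Φ)) {s : ℂ} (h0 : 0 < s.re) (h1 : s.re < 1) :
    ContinuousAt (UU lam η ε ρ Φ) s := by
  have hq : ((η ^ (-lam) * Real.pi ^ (-(1 / 2) : ℝ) : ℝ) : ℂ) ≠ 0 := by
    have := mul_pos (Real.rpow_pos_of_pos hη (-lam)) (Real.rpow_pos_of_pos Real.pi_pos (-(1 / 2)))
    exact_mod_cast this.ne'
  have hG : ∀ a : ℝ, 0 < a → ContinuousAt (fun z : ℂ => Complex.Gamma (a * z)) s := by
    intro a ha
    exact ContinuousAt.comp (f := fun z : ℂ => (a : ℂ) * z)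
      (Complex.differentiableAt_Gamma _ (pos_ne ha h0)).continuousAt (by fun_prop)
  have hs1 : s - 1 ≠ 0 := by
    intro e
    have := congrArg Complex.re e
    simp at this
    linarith
  unfold UU
  refine ((continuousAt_const_cpow hq).mul ((hG _ (by norm_num)).mul (hG _ hlam))).mul ?_
  exact (hH s).continuousAt.div (by fun_prop) hs1

theorem UU_symm {lam η ε : ℝ} {ρ : ℂ} {Φ : ℂ → ℂ} (hlam : 0 < lam) (hη : 0 < η)
    (h0 : 0 < ρ.re) (h1 : ρ.re < 1) (hz : riemannZeta ρ = 0)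
    (hH : Differentiable ℂ (HH lam η ε ρ Φ)) (hΦ1 : ∀ w : ℂ, Φ (lam - w) = Φ w)
    (hΦ2 : ∀ w : ℂ, Φ (starRingEnd ℂ w) = starRingEnd ℂ (Φ w)) {s : ℂ}
    (hs0 : s ≠ 0) (hs1 : s ≠ 1) (g1 : ∀ n : ℕ, ((1 / 2 : ℝ) : ℂ) * s ≠ -(n : ℂ))
    (g2 : ∀ n : ℕ, (lam : ℂ) * s ≠ -(n : ℂ))
    (g3 : ∀ n : ℕ, ((1 / 2 : ℝ) : ℂ) * (1 - starRingEnd ℂ s) ≠ -(n : ℂ))
    (g4 : ∀ n : ℕ, (lam : ℂ) * (1 - starRingEnd ℂ s) ≠ -(n : ℂ)) :
    UU lam η ε ρ Φ s = starRingEnd ℂ (UU lam η ε ρ Φ (1 - starRingEnd ℂ s)) := by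
  by_cases hs : Off ρ s
  · exact UU_symm_off hlam hη h0 h1 hz hΦ1 hΦ2 hs hs0 hs1 g1 g2 g3 g4
  have hre : 0 < s.re ∧ s.re < 1 := by
    by_contra hc
    apply hs
    apply Off_of_re h0 h1
    by_contra hd
    push Not at hd
    exact hc ⟨hd.2, hd.1⟩
  have c1 := UU_cont (ε := ε) hlam hη hH hre.1 hre.2
  have c2 : ContinuousAt
      (fun z => starRingEnd ℂ (UU lam η ε ρ Φ (1 - starRingEnd ℂ z))) s := by
    have c3 := UU_cont (ε := ε) hlam hη hH (s := 1 - starRingEnd ℂ s)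
      (by simp; linarith [hre.2]) (by simp; linarith [hre.1])
    have c4 : ContinuousAt (fun z : ℂ => 1 - starRingEnd ℂ z) s :=
      continuousAt_const.sub Complex.continuous_conj.continuousAt
    exact Complex.continuous_conj.continuousAt.comp
      (ContinuousAt.comp (f := fun z : ℂ => 1 - starRingEnd ℂ z) c3 c4)
  have hstrip : ∀ᶠ z in 𝓝 s, 0 < z.re ∧ z.re < 1 :=
    ((isOpen_lt continuous_const Complex.continuous_re).inter
      (isOpen_lt Complex.continuous_re continuous_const)).mem_nhds hre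
  have hev : UU lam η ε ρ Φ =ᶠ[𝓝[≠] s]
      fun z => starRingEnd ℂ (UU lam η ε ρ Φ (1 - starRingEnd ℂ z)) := by
    filter_upwards [Off_eventually ρ s, mem_nhdsWithin_of_mem_nhds hstrip] with z hz1 hz2
    have r1 : 0 < (1 - starRingEnd ℂ z).re := by simp; linarith [hz2.2]
    refine UU_symm_off hlam hη h0 h1 hz hΦ1 hΦ2 hz1 ?_ ?_ (pos_ne (by norm_num) hz2.1)
      (pos_ne hlam hz2.1) (pos_ne (by norm_num) r1) (pos_ne hlam r1)
    · rintro rfl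
      simp at hz2
    · rintro rfl
      simp at hz2
  exact tendsto_nhds_unique_of_eventuallyEq (c1.tendsto.mono_left nhdsWithin_le_nhds)
    (c2.tendsto.mono_left nhdsWithin_le_nhds) hev

end

end Pool.Agent.H369Z.Pole
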