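import Mathlib
import Pool.Agent.H369Z.Pole.D

/-! The pole at `1` and the pole of the quotient at the chosen zero. -/

set_option autoImplicit false

open Filter Topology Complex

namespace Pool.Agent.H369Z.Pole

open Pool.Agent.H949Z.Hecke Pool.Agent.H437R2

noncomputable section

/-- the member of the class -/
def FS (lam η ε : ℝ) (ρ : ℂ) (Φ : ℂ → ℂ) (s : ℂ) : ℂ := HH lam η ε ρ Φ s / (s - 1)

lemma FS_order_one {lam η ε : ℝ} {ρ : ℂ} {Φ : ℂ → ℂ} (hH : Differentiable ℂ (HH lam η ε ρ Φ))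
    (h1 : HH lam η ε ρ Φ 1 ≠ 0) :
    meromorphicOrderAt (FS lam η ε ρ Φ) 1 = ((-1 : ℤ) : WithTop ℤ) := by
  have hm : MeromorphicAt (FS lam η ε ρ Φ) 1 := by
    unfold FS
    exact (hH.analyticAt 1).meromorphicAt.div
      ((analyticAt_id.sub analyticAt_const).meromorphicAt)
  rw [meromorphicOrderAt_eq_int_iff hm]
  refine ⟨HH lam η ε ρ Φ, hH.analyticAt 1, h1, Eventually.of_forall fun z => ?_⟩
  unfold FS
  rw [zpow_neg_one, smul_eq_mul, div_eq_inv_mul]

lemma HH_one_ne {lam η ε : ℝ} {ρ : ℂ} {Φ : ℂ → ℂ} (hH : Differentiable ℂ (HH lam η ε ρ Φ))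
    {d0 : ℝ} (hd : 0 < d0)
    (hb : ∀ s : ℂ, 1 < s.re → d0 * ‖riemannZeta₁ s‖ ≤ ‖HH lam η ε ρ Φ s‖) :
    HH lam η ε ρ Φ 1 ≠ 0 := by
  have c1 : Continuous fun t : ℝ => ‖HH lam η ε ρ Φ (t : ℂ)‖ :=
    (hH.continuous.comp Complex.continuous_ofReal).norm
  have c2 : Continuous fun t : ℝ => d0 * ‖riemannZeta₁ (t : ℂ)‖ :=
    continuous_const.mul (differentiable_riemannZeta₁.continuous.comp Complex.continuous_ofReal).norm
  have t1 := (c1.tendsto 1).mono_left (nhdsWithin_le_nhds (s := Set.Ioi (1 : ℝ)))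
  have t2 := (c2.tendsto 1).mono_left (nhdsWithin_le_nhds (s := Set.Ioi (1 : ℝ)))
  have h := le_of_tendsto_of_tendsto t2 t1 (by
    filter_upwards [self_mem_nhdsWithin] with t ht
    exact hb t (by simpa using ht))
  simp only [Complex.ofReal_one, riemannZeta₁_one, norm_one, mul_one] at h
  exact norm_pos_iff.1 (hd.trans_le h)

lemma z1_ev_ne (ρ : ℂ) : ∀ᶠ z in 𝓝[≠] ρ, riemannZeta₁ z ≠ 0 := by
  rcases (differentiable_riemannZeta₁.analyticAt ρ).eventually_eq_zero_or_eventually_ne_zero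
    with h | h
  · exfalso
    have h1 : AnalyticOnNhd ℂ riemannZeta₁ Set.univ :=
      fun z _ => differentiable_riemannZeta₁.analyticAt z
    have h2 := h1.eqOn_zero_of_preconnected_of_eventuallyEq_zero isPreconnected_univ
      (Set.mem_univ ρ) h (Set.mem_univ 1)
    simp [riemannZeta₁_one] at h2
  · exact h

lemma GG_order {lam η ε : ℝ} {ρ : ℂ} {Φ : ℂ → ℂ} (hlam : 0 < lam) (hε : 0 < ε)
    (h0 : 0 < ρ.re) (him : 1 < ρ.im) (hΦ : Differentiable ℂ Φ) :
    ∃ g : ℂ → ℂ, AnalyticAt ℂ g ρ ∧ g ρ ≠ 0 ∧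
      ∀ z : ℂ, Off ρ z → GG lam η ε ρ Φ z = (z - ρ)⁻¹ * g z := by
  have hl : (lam : ℂ) ≠ 0 := by exact_mod_cast hlam.ne'
  have he : (ε : ℂ) ≠ 0 := by exact_mod_cast hε.ne'
  have n2 : ρ - (1 - ρ) ≠ 0 := by
    intro e
    have := congrArg Complex.im e
    simp at this
    linarith
  have n3 : ρ - starRingEnd ℂ ρ ≠ 0 := by
    intro e
    have := congrArg Complex.im e
    simp at this
    linarith
  obtain ⟨u, hu1, hu2, hu3⟩ : ∃ u : ℂ → ℂ, AnalyticAt ℂ u ρ ∧ 1 + u ρ ≠ 0 ∧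
      ∀ z : ℂ, Off ρ z → u z = (z - ρ) / (z - (1 - starRingEnd ℂ ρ)) := by
    by_cases h : 1 - starRingEnd ℂ ρ = ρ
    · refine ⟨fun _ => 1, analyticAt_const, by norm_num, fun z hz => ?_⟩
      rw [h, div_self (sub_ne_zero.2 hz.1)]
    · refine ⟨fun z => (z - ρ) / (z - (1 - starRingEnd ℂ ρ)), ?_, by simp, fun z _ => rfl⟩
      exact (analyticAt_id.sub analyticAt_const).div (analyticAt_id.sub analyticAt_const)
        (sub_ne_zero.2 (Ne.symm h))
  have hΦl : Differentiable ℂ fun z : ℂ => Φ (lam * z) := hΦ.comp (by fun_prop)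
  refine ⟨fun z => ((z - ρ) * Φ (lam * z) + ε * I / (2 * lam) *
    (1 - (z - ρ) / (z - (1 - ρ)) - (z - ρ) / (z - starRingEnd ℂ ρ) + u z)) * EG lam η z,
    ?_, ?_, fun z hz => ?_⟩
  · refine AnalyticAt.mul (AnalyticAt.add ?_ (AnalyticAt.mul analyticAt_const ?_))
      ((EG_diff lam η).analyticAt ρ)
    · exact (analyticAt_id.sub analyticAt_const).mul (hΦl.analyticAt ρ)
    · refine AnalyticAt.add (AnalyticAt.sub (AnalyticAt.sub analyticAt_const ?_) ?_) hu1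
      · exact (analyticAt_id.sub analyticAt_const).div (analyticAt_id.sub analyticAt_const) n2
      · exact (analyticAt_id.sub analyticAt_const).div (analyticAt_id.sub analyticAt_const) n3
  · simp only [sub_self, zero_mul, zero_div, sub_zero, zero_add]
    refine mul_ne_zero (mul_ne_zero ?_ hu2) (EG_ne hlam h0)
    exact div_ne_zero (mul_ne_zero he Complex.I_ne_zero) (mul_ne_zero two_ne_zero hl)
  · simp only [hu3 z hz]
    obtain ⟨k1, k2, k3, k4⟩ := hz
    unfold GG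
    rw [FF_eq lam η (fun w => Φ w + ε * RR lam (lam * ρ) w)]
    unfold RR
    have e1 : (lam : ℂ) * z - lam * ρ = lam * (z - ρ) := by ring
    have e2 : (lam : ℂ) * z + lam * ρ - lam = lam * (z - (1 - ρ)) := by ring
    have e3 : (lam : ℂ) * z - starRingEnd ℂ (lam * ρ) = lam * (z - starRingEnd ℂ ρ) := by
      rw [map_mul, Complex.conj_ofReal]; ring
    have e4 : (lam : ℂ) * z + starRingEnd ℂ (lam * ρ) - lam =
        lam * (z - (1 - starRingEnd ℂ ρ)) := by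
      rw [map_mul, Complex.conj_ofReal]; ring
    rw [e1, e2, e3, e4]
    have m1 := sub_ne_zero.2 k1
    have m2 := sub_ne_zero.2 k2
    have m3 := sub_ne_zero.2 k3
    have m4 := sub_ne_zero.2 k4
    field_simp

lemma quot_order {lam η ε : ℝ} {ρ : ℂ} {Φ : ℂ → ℂ} (hlam : 0 < lam) (hε : 0 < ε)
    (h0 : 0 < ρ.re) (h1 : ρ.re < 1) (him : 1 < ρ.im) (hz : riemannZeta ρ = 0)
    (hΦ : Differentiable ℂ Φ) :
    meromorphicOrderAt (fun s => FS lam η ε ρ Φ s / riemannZeta s ^ 1) ρ =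
      ((-1 : ℤ) : WithTop ℤ) := by
  obtain ⟨g, hg1, hg2, hg3⟩ := GG_order (η := η) hlam hε h0 him hΦ
  have hne : ∀ᶠ z in 𝓝[≠] ρ, z ≠ 1 := by
    refine mem_nhdsWithin_of_mem_nhds (isOpen_ne.mem_nhds ?_)
    rintro rfl
    simp at h1
  have hev : (fun s => FS lam η ε ρ Φ s / riemannZeta s ^ 1) =ᶠ[𝓝[≠] ρ]
      fun z => (z - ρ) ^ (-1 : ℤ) • g z := by
    filter_upwards [Off_eventually ρ ρ, z1_ev_ne ρ, hne] with z k1 k2 k3
    unfold FS
    rw [HH_eq Φ hlam h0 h1 hz k1, hg3 z k1, zpow_neg_one, smul_eq_mul]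
    rw [z1_of_ne k3] at k2 ⊢
    have m1 := left_ne_zero_of_mul k2
    have m2 := right_ne_zero_of_mul k2
    field_simp
  have hm : MeromorphicAt (fun s => FS lam η ε ρ Φ s / riemannZeta s ^ 1) ρ := by
    refine MeromorphicAt.congr ?_ hev.symm
    exact (((analyticAt_id.sub analyticAt_const).meromorphicAt).zpow (-1)).smul hg1.meromorphicAt
  rw [meromorphicOrderAt_eq_int_iff hm]
  exact ⟨g, hg1, hg2, hev⟩

end

end Pool.Agent.H369Z.Pole
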